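import Pool.Agent.L5helper21.DT.Fam

/-!
# The degree statement over arbitrary bases, at the points over rational points of affine space
-/

set_option autoImplicit false
set_option linter.unusedSectionVars false

open Polynomial Filter Topology NumberField

namespace Pool.Agent.L5helper21.DT

open Pool.Agent.Y890.MV Pool.Agent.X255.NP Pool.Agent.X255.GB
open Pool.Agent.Y890.SP (exists_omega)
open Pool.Agent.Y124 (Cov)

variable {X Y σ : Type} [Fintype X] [DecidableEq X] [Fintype Y] [DecidableEq Y] [Fintype σ] [DecidableEq σ]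

/-- the degree statement at the point `s = (y(x), x)` for relations over `F` -/
def DegreeAt (k : ℕ) (H : ℝ) (U : Set (X → ℂ)) (y : Y → (X → ℂ) → ℂ) (P : σ → (X → ℂ) → ℂ) (F : Type) [Field F]
    (io : F →+* ℂ) (x : X → ℂ) : Prop :=
  ∀ c : (σ → Fin (k + 1)) → 𝓞 F, (∀ l (φ : F →+* ℂ), ‖φ (c l : F)‖ ≤ H) →
    value (fun l => io (c l : F)) (fun v => P v x) = 0 →
    ∃ G : (σ → Fin (k + 1)) → MvPolynomial (Y ⊕ X) QB, (∀ l, MvPolynomial.aeval (pt y x) (G l) = io (c l : F)) ∧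
      ∀ u ∈ U, value (fun l => MvPolynomial.aeval (pt y u) (G l)) (fun v => P v u) = 0

/-- the rational points of height at most `T` over which the degree statement fails -/
def ExcS (k : ℕ) (U : Set (X → ℂ)) (y : Y → (X → ℂ) → ℂ) (P : σ → (X → ℂ) → ℂ) (T : ℝ) : Set (X → ℚ) :=
  {x | (∀ i, Y120.HtLe ℚ T (x i)) ∧ (fun i => (x i : ℂ)) ∈ InnerM U k ∧
    ∃ (F : Type) (_ : Field F) (_ : NumberField F) (io : F →+* ℂ), Module.finrank ℚ F ≤ k ∧
      (∀ j, ∃ z : F, Y120.HtLe F (T ^ k) z ∧ io z = y j fun i => (x i : ℂ)) ∧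
      ¬ DegreeAt k (T ^ k) U y P F io fun i => (x i : ℂ)}

theorem htLe_HF {F : Type} [Field F] [NumberField F] {io : F →+* ℂ} {E : IntermediateField ℚ ℂ}
    (hE : ∀ (c : 𝓞 F) (R : ℝ), (∀ φ : F →+* ℂ, ‖φ (c : F)‖ ≤ R) → AE E R (io (c : F))) {R : ℝ} {z : F}
    (hz : Y120.HtLe F R z) : HF E R (io z) := by
  obtain ⟨a, b, hb, ha1, hb1, rfl⟩ := hz
  refine ⟨io a, io b, hE a R fun φ => (norm_embedding_le_house (a : F) φ).trans ha1,
    hE b R fun φ => (norm_embedding_le_house (b : F) φ).trans hb1, ?_, ?_⟩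
  · intro h0
    apply hb
    have h1 : (b : F) = 0 := (map_eq_zero io).1 h0
    exact_mod_cast h1
  · rw [map_div₀]

theorem excS_cov [Nonempty X] {U : Set (X → ℂ)} {y : Y → (X → ℂ) → ℂ} {P : σ → (X → ℂ) → ℂ} (hU : IsPreconnected U)
    (hUo : IsOpen U) (hne : U.Nonempty) (hy : ∀ j, AnalyticOnNhd ℂ (y j) U) (hP : ∀ i, AnalyticOnNhd ℂ (P i) U)
    (halg : AlgY U y) (hreg : RegularY U y P) (k : ℕ) (ε : ℝ) (hε : 0 < ε) :
    ∃ (D : ℕ) (C T₀ : ℝ), 0 ≤ C ∧ 2 ≤ T₀ ∧ ∀ T : ℝ, T₀ ≤ T →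
      Cov D ⌊C * T ^ ε⌋₊ ((fun (s : X → ℚ) i => algebraMap ℚ ℂ (s i)) '' ExcS k U y P T) := by
  classical
  rcases Nat.eq_zero_or_pos k with hk | hk
  · refine ⟨0, 0, 2, le_rfl, le_rfl, fun T _ => ⟨∅, by simp, by simp, ?_⟩⟩
    rintro _ ⟨x, ⟨_, _, F, _, _, _, hF, _⟩, rfl⟩
    have h1 : 0 < Module.finrank ℚ F := Module.finrank_pos
    omega
  -- descent
  have hpt : ∀ j, AnalyticOnNhd ℂ (fun x => pt y x j) U := by
    rintro (j | i)
    · exact hy j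
    · exact (ContinuousLinearMap.proj (R := ℂ) (φ := fun _ : X => ℂ) i).analyticOnNhd U
  obtain ⟨e, ⟨x0, hx0, he0⟩, H1⟩ := exists_desc (Λ := σ → Fin (k + 1)) hU hUo hne (pt := pt y) hpt
    (h := fun l x => ∏ v : σ, P v x ^ (l v : ℕ))
    (fun l => Finset.analyticOnNhd_fun_prod _ fun v _ => (hP v).pow _)
  obtain ⟨A, _, _, _, L, _, _, _, F', π, ph, hπ, hphπ, hz, hfrac, hregA, hden, hlocind⟩ :=
    exists_model hU hUo hne hy hP halg hreg
  obtain ⟨q, hq, hq'⟩ := hden (π (MvPolynomial.map (algebraMap QB ℂ) e)) (fun h0 => he0 (by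
    have h2 := hphπ x0 hx0 (MvPolynomial.map (algebraMap QB ℂ) e)
    rw [h0, map_zero] at h2
    exact h2.symm))
  have hq2 : ∀ x ∈ U, MvPolynomial.eval (pt y x) (MvPolynomial.map (algebraMap QB ℂ) e) = 0 →
      MvPolynomial.eval x q = 0 := by
    intro x hx h0
    refine hq' x hx ?_
    rw [hphπ]
    exact h0
  obtain ⟨D, C, T₀, hC, hT₀, HH⟩ := excN_cov hU hUo hne hy hP halg hreg (InnerM U k) (innerM_compact U k)
    (innerM_sub U hk) k (Fin 1) k (fun _ => 1) (k : ℝ) ε hε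
  refine ⟨max D q.totalDegree, C + 1, T₀, by positivity, hT₀, fun T hT => ?_⟩
  have hT1 : 1 ≤ T := by linarith
  have hZcov : Cov q.totalDegree 1 {t : X → ℂ | MvPolynomial.eval t q = 0} := by
    refine ⟨{q}, by simp, ?_, ?_⟩
    · intro P hP
      rw [Finset.mem_singleton] at hP
      subst hP
      exact ⟨hq, le_rfl⟩
    · intro t ht
      exact ⟨q, Finset.mem_singleton_self _, ht⟩
  have h4 := ((HH T hT).mono (le_max_left D q.totalDegree) le_rfl (Set.Subset.refl _)).union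
    (hZcov.mono (le_max_right D q.totalDegree) le_rfl (Set.Subset.refl _))
  refine h4.mono le_rfl ?_ ?_
  · have h6 : (1 : ℝ) ≤ T ^ ε := Real.one_le_rpow hT1 hε.le
    have h7 : 0 ≤ C * T ^ ε := by positivity
    rw [← Nat.floor_add_one h7]
    apply Nat.floor_le_floor
    nlinarith
  rintro _ ⟨x, ⟨hx1, hx2, F, _, _, io, hF, hFz, hno⟩, rfl⟩
  have hxU : (fun i => (x i : ℂ)) ∈ U := innerM_sub U hk hx2
  have hcast : (fun i => algebraMap ℚ ℂ (x i)) = fun i => (x i : ℂ) := rfl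
  by_cases hxq : MvPolynomial.eval (fun i => (x i : ℂ)) q = 0
  · exact Or.inr hxq
  left
  refine ⟨x, ⟨hx1, hx2, ?_⟩, rfl⟩
  obtain ⟨E, hE, hEF, hEint⟩ := image_field F io
  refine ⟨E, hE, hEF.trans_le hF, fun j => ?_, ?_⟩
  · obtain ⟨z, hz1, hz2⟩ := hFz j
    have h5 := htLe_HF hEint hz1
    rw [hz2] at h5
    rw [Real.rpow_natCast]
    exact h5
  · unfold DegreeAt at hno
    push Not at hno
    obtain ⟨c, hc1, hc2, hc3⟩ := hno
    refine ⟨fun l _ => io (c l : F), fun l _ => ?_, ?_, ?_⟩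
    · rw [Real.rpow_natCast]
      exact hEint (c l) (T ^ k) (hc1 l)
    · simp only [Finset.univ_unique, Finset.sum_singleton, one_mul]
      exact hc2
    · rintro ⟨G, hG1, hG2⟩
      simp only [Finset.univ_unique, Finset.sum_singleton, one_mul] at hG1
      have hal : ∀ j, IsAlgebraic ℚ (pt y (fun i => (x i : ℂ)) j) := by
        rintro (j | i)
        · obtain ⟨z, hz1, hz2⟩ := hFz j
          change IsAlgebraic ℚ (y j fun i => (x i : ℂ))
          rw [← hz2]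
          exact isAlg_io io z
        · exact isAlgebraic_algebraMap (x i)
      obtain ⟨G', hG'1, hG'2⟩ := H1 _ hxU hal (fun h0 => hxq (hq2 _ hxU h0)) (fun l => io (c l : F))
        (fun l => isAlg_io io _) ⟨G, hG1, hG2⟩
      have hae : ∀ (u : Y ⊕ X → ℂ) (p : MvPolynomial (Y ⊕ X) QB),
          MvPolynomial.aeval u p = MvPolynomial.eval u (MvPolynomial.map (algebraMap QB ℂ) p) := by
        intro u p
        rw [MvPolynomial.eval_map, MvPolynomial.aeval_def]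
      obtain ⟨u, hu, hne'⟩ := hc3 G' (fun l => by rw [hae]; exact hG'1 l)
      apply hne'
      unfold value
      simp only [hae]
      exact hG'2 u hu

/-- **Arbitrary bases.** -/
theorem excS_omega [Nonempty X] {U : Set (X → ℂ)} {y : Y → (X → ℂ) → ℂ} {P : σ → (X → ℂ) → ℂ} (hU : IsPreconnected U)
    (hUo : IsOpen U) (hne : U.Nonempty) (hy : ∀ j, AnalyticOnNhd ℂ (y j) U) (hP : ∀ i, AnalyticOnNhd ℂ (P i) U)
    (halg : AlgY U y) (hreg : RegularY U y P) :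
    ∃ (ω : ℝ → ℕ) (T₀ : ℝ), Tendsto ω atTop atTop ∧ Monotone ω ∧ ∀ T, T₀ ≤ T → 0 < ω T ∧
      Cov ⌊T ^ ((ω T : ℝ)⁻¹)⌋₊ ⌊T ^ ((ω T : ℝ)⁻¹)⌋₊
        ((fun (s : X → ℚ) i => algebraMap ℚ ℂ (s i)) '' ExcS (ω T) U y P T) ∧
      (ExcS (ω T) U y P T).Finite ∧ ((ExcS (ω T) U y P T).ncard : ℝ) ≤
        T ^ ((ω T : ℝ)⁻¹) * ({x : ℚ | Y120.HtLe ℚ T x}.ncard : ℝ) ^ (Fintype.card X - 1) := by
  classical
  obtain ⟨ω, T₀, h1, h2, h3⟩ := omega_gen (X := X) (fun _ => Unit)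
    (fun k K _ _ _ _ T => {s : X → K | (∀ j, Y120.HtLe K T (s j)) ∧ ∃ s' ∈ ExcS k U y P T, s = fun i => (s' i : K)})
    (fun k K _ _ io _ T s hs => hs.1) (by
      intro k ε hε
      obtain ⟨D, C, T₀, hC, hT₀, H⟩ := excS_cov hU hUo hne hy hP halg hreg k ε hε
      refine ⟨D, C, T₀, hC, hT₀, fun K _ _ hK io _ T hT => (H T hT).mono le_rfl le_rfl ?_⟩
      rintro _ ⟨_, ⟨_, s', hs', rfl⟩, rfl⟩
      refine ⟨s', hs', ?_⟩
      funext i
      simp)
  refine ⟨ω, T₀, h1, h2, fun T hT => ?_⟩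
  obtain ⟨h4, h5⟩ := h3 T hT
  obtain ⟨h6, h7, h8⟩ := h5 ℚ (by rw [Module.finrank_self]; exact h4) (algebraMap ℚ ℂ) ()
  have hset : {s : X → ℚ | (∀ j, Y120.HtLe ℚ T (s j)) ∧ ∃ s' ∈ ExcS (ω T) U y P T, s = fun i => (s' i : ℚ)} =
      ExcS (ω T) U y P T := by
    ext s
    constructor
    · rintro ⟨_, s', hs', rfl⟩
      exact hs'
    · intro hs
      exact ⟨hs.1, s, hs, rfl⟩
  simp only [Rat.cast_id] at h6 h7 h8
  rw [hset] at h6 h7 h8
  exact ⟨h4, h6, h7, h8⟩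

end Pool.Agent.L5helper21.DT
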