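import Pool.Agent.L5helper21.DT.GInv

/-!
# Linear functionals applied to the coefficients of polynomials
-/

set_option autoImplicit false

namespace Pool.Agent.L5helper21.DT

open MvPolynomial

variable {k L : Type} [Field k] [Field L] [Algebra k L] {J : Type}

/-- a linear functional applied to the coefficients -/
noncomputable def cf (φ : L →ₗ[k] k) (p : MvPolynomial J L) : MvPolynomial J k :=
  ∑ m ∈ p.support, monomial m (φ (p.coeff m))

theorem coeff_cf (φ : L →ₗ[k] k) (p : MvPolynomial J L) (m : J →₀ ℕ) : (cf φ p).coeff m = φ (p.coeff m) := by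
  classical
  unfold cf
  rw [coeff_sum]
  simp only [coeff_monomial]
  rw [Finset.sum_ite_eq' p.support m]
  split_ifs with h
  · rfl
  · rw [notMem_support_iff.1 h, map_zero]

theorem cf_add (φ : L →ₗ[k] k) (p q : MvPolynomial J L) : cf φ (p + q) = cf φ p + cf φ q := by
  ext m
  rw [coeff_cf, coeff_add, coeff_add, map_add, coeff_cf, coeff_cf]

theorem cf_zero (φ : L →ₗ[k] k) : cf φ (0 : MvPolynomial J L) = 0 := by
  ext m
  rw [coeff_cf, coeff_zero, coeff_zero, map_zero]

theorem cf_sum (φ : L →ₗ[k] k) {κ : Type*} (s : Finset κ) (p : κ → MvPolynomial J L) :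
    cf φ (∑ i ∈ s, p i) = ∑ i ∈ s, cf φ (p i) := by
  ext m
  rw [coeff_cf, coeff_sum, coeff_sum, map_sum]
  simp only [coeff_cf]

theorem cf_mul_map (φ : L →ₗ[k] k) (p : MvPolynomial J L) (q : MvPolynomial J k) :
    cf φ (p * map (algebraMap k L) q) = cf φ p * q := by
  classical
  ext m
  rw [coeff_cf, coeff_mul, coeff_mul, map_sum]
  refine Finset.sum_congr rfl fun x _ => ?_
  rw [coeff_map, coeff_cf, mul_comm, ← Algebra.smul_def, map_smul, smul_eq_mul, mul_comm]

theorem eval_cf (φ : L →ₗ[k] k) (p : MvPolynomial J L) (z : J → k) :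
    eval z (cf φ p) = φ (eval (fun j => algebraMap k L (z j)) p) := by
  classical
  have h1 : eval (fun j => algebraMap k L (z j)) p = ∑ m ∈ p.support,
      p.coeff m * algebraMap k L (m.prod fun j n => z j ^ n) := by
    rw [eval_eq]
    refine Finset.sum_congr rfl fun m _ => ?_
    congr 1
    rw [Finsupp.prod, map_prod]
    simp only [map_pow]
  have h2 : ∀ m, eval z (monomial m (φ (p.coeff m))) = φ (p.coeff m) * (m.prod fun j n => z j ^ n) := fun m => by
    rw [eval_monomial]
  rw [h1, cf, map_sum, map_sum]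
  refine Finset.sum_congr rfl fun m _ => ?_
  rw [h2, mul_comm (p.coeff m), ← Algebra.smul_def, map_smul, smul_eq_mul, mul_comm]

/-- polynomials are the combinations of their components with respect to a basis -/
theorem cf_repr {ι : Type} (b : Module.Basis ι k L) (p : MvPolynomial J L) (T : Finset ι)
    (hT : ∀ m ∈ p.support, (b.repr (p.coeff m)).support ⊆ T) :
    p = ∑ i ∈ T, C (b i) * map (algebraMap k L) (cf (b.coord i) p) := by
  classical
  ext m
  rw [coeff_sum]
  simp only [coeff_C_mul, coeff_map, coeff_cf, Module.Basis.coord_apply]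
  by_cases hm : m ∈ p.support
  · have h1 := b.linearCombination_repr (p.coeff m)
    rw [Finsupp.linearCombination_apply, Finsupp.sum_of_support_subset _ (hT m hm) (fun i a => a • b i) (fun i _ => zero_smul k (b i))] at h1
    conv_lhs => rw [← h1]
    refine Finset.sum_congr rfl fun i _ => ?_
    rw [Algebra.smul_def, mul_comm]
  · rw [notMem_support_iff.1 hm]
    simp

/-- finitely many polynomials -/
theorem exists_finset {ι κ : Type} (b : Module.Basis ι k L) [Fintype κ] (p : κ → MvPolynomial J L) :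
    ∃ T : Finset ι, ∀ i, p i = ∑ t ∈ T, C (b t) * map (algebraMap k L) (cf (b.coord t) (p i)) := by
  classical
  refine ⟨Finset.univ.biUnion fun i => (p i).support.biUnion fun m => (b.repr ((p i).coeff m)).support,
    fun i => cf_repr b (p i) _ fun m hm t ht => ?_⟩
  exact Finset.mem_biUnion.2 ⟨i, Finset.mem_univ _, Finset.mem_biUnion.2 ⟨m, hm, ht⟩⟩

/-- **Descent.** -/
theorem descent {Λ : Type} [Fintype Λ] [DecidableEq Λ] [Finite J] (p : Ideal (MvPolynomial J L)) [hp : p.IsPrime]
    (M : Submodule (MvPolynomial J L) (Λ → MvPolynomial J L))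
    (hM0 : ∀ G : Λ → MvPolynomial J L, (∀ l, G l ∈ p) → G ∈ M)
    (hsat : ∀ (d : MvPolynomial J L) (G : Λ → MvPolynomial J L), d ∉ p → d • G ∈ M → G ∈ M) :
    ∃ e : MvPolynomial J k, map (algebraMap k L) e ∉ p ∧ ∀ z : J → k,
      (∀ q ∈ p, eval (fun j => algebraMap k L (z j)) q = 0) → eval z e ≠ 0 → ∀ r : Λ → k,
      (∃ G ∈ M, ∀ l, eval (fun j => algebraMap k L (z j)) (G l) = algebraMap k L (r l)) →
      ∃ G : Λ → MvPolynomial J k, (fun l => map (algebraMap k L) (G l)) ∈ M ∧ ∀ l, eval z (G l) = r l := by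
  classical
  -- generators of `M`
  obtain ⟨n, 𝒢, h𝒢⟩ := Submodule.fg_iff_exists_fin_generating_family.1 (IsNoetherian.noetherian M)
  have h𝒢M : ∀ j, 𝒢 j ∈ M := fun j => by
    rw [← h𝒢]
    exact Submodule.subset_span ⟨j, rfl⟩
  let Gm : Matrix Λ (Fin n) (MvPolynomial J L) := Matrix.of fun l j => 𝒢 j l
  obtain ⟨e₀, C₀, he₀, hC₀⟩ := ginv_prime p Gm
  let B : Matrix Λ Λ (MvPolynomial J L) := e₀ • (1 : Matrix Λ Λ (MvPolynomial J L)) - Gm * C₀
  have hBG : B * Gm = -(Gm * C₀ * Gm - e₀ • Gm) := by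
    simp only [B]
    rw [Matrix.sub_mul, Matrix.smul_mul, Matrix.one_mul, neg_sub]
  have hBM : ∀ G ∈ M, ∀ l, (B.mulVec G) l ∈ p := by
    intro G hG l
    rw [← h𝒢] at hG
    induction hG using Submodule.span_induction with
    | mem x hx =>
      obtain ⟨j, rfl⟩ := hx
      have h1 : (B.mulVec (𝒢 j)) l = (B * Gm) l j := by
        simp only [Matrix.mul_apply, Matrix.mulVec, dotProduct, Gm, Matrix.of_apply]
      rw [h1, hBG, Matrix.neg_apply]
      exact neg_mem (hC₀ l j)
    | zero =>
      rw [Matrix.mulVec_zero]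
      exact zero_mem p
    | add x y _ _ hx hy =>
      rw [Matrix.mulVec_add]
      exact add_mem hx hy
    | smul a x _ hx =>
      rw [Matrix.mulVec_smul, Pi.smul_apply, smul_eq_mul]
      exact Ideal.mul_mem_left _ _ hx
  -- components
  let b := Module.Basis.ofVectorSpace k L
  obtain ⟨T, hT⟩ := exists_finset b (fun q : Λ × Λ => B q.1 q.2)
  let B' : Matrix ({t // t ∈ T} × Λ) Λ (MvPolynomial J k) := Matrix.of fun s l => cf (b.coord s.1.1) (B s.2 l)
  let q : Ideal (MvPolynomial J k) := p.comap (map (algebraMap k L))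
  obtain ⟨e₁, C₁, he₁, hC₁⟩ := ginv_prime q B'
  refine ⟨e₁, fun h => he₁ h, fun z hz hez r hr => ?_⟩
  obtain ⟨G, hG, hGr⟩ := hr
  -- `B(z) r = 0`
  have h1 : ∀ l, ∑ l', eval (fun j => algebraMap k L (z j)) (B l l') * algebraMap k L (r l') = 0 := by
    intro l
    have h2 := hz _ (hBM G hG l)
    simp only [Matrix.mulVec, dotProduct, map_sum, map_mul, hGr] at h2
    exact h2
  have h2 : ∀ s, ∑ l', eval z (B' s l') * r l' = 0 := by
    rintro ⟨⟨t, ht⟩, l⟩
    have h3 := congrArg (b.coord t) (h1 l)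
    rw [map_sum, map_zero] at h3
    rw [← h3]
    refine Finset.sum_congr rfl fun l' _ => ?_
    simp only [B', Matrix.of_apply]
    rw [eval_cf, mul_comm (eval _ _) (algebraMap k L (r l')), ← Algebra.smul_def, map_smul, smul_eq_mul, mul_comm]
  -- the relation
  let ρ : Λ → MvPolynomial J k := fun l => C (r l)
  let G0 : Λ → MvPolynomial J k := fun l => e₁ * ρ l - (C₁ * B').mulVec ρ l
  have hB'G0 : ∀ s, (B'.mulVec G0) s ∈ q := by
    intro s
    have h3 : G0 = e₁ • ρ - (C₁ * B').mulVec ρ := rfl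
    have h4 : B'.mulVec G0 = -((B' * C₁ * B' - e₁ • B').mulVec ρ) := by
      rw [h3, Matrix.mulVec_sub, Matrix.mulVec_smul, Matrix.mulVec_mulVec, ← Matrix.mul_assoc, Matrix.sub_mulVec,
        Matrix.smul_mulVec, neg_sub]
    rw [h4, Pi.neg_apply]
    refine neg_mem ?_
    simp only [Matrix.mulVec, dotProduct]
    exact Ideal.sum_mem _ fun l _ => Ideal.mul_mem_right _ _ (hC₁ s l)
  have hB'z : ∀ s, eval z ((B'.mulVec ρ) s) = 0 := by
    intro s
    simp only [Matrix.mulVec, dotProduct, map_sum, map_mul, ρ, eval_C]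
    exact h2 s
  have hG0z : ∀ l, eval z (G0 l) = eval z e₁ * r l := by
    intro l
    simp only [G0, map_sub, map_mul, ρ, eval_C]
    have h3 : eval z ((C₁ * B').mulVec ρ l) = 0 := by
      rw [← Matrix.mulVec_mulVec]
      simp only [Matrix.mulVec, dotProduct, map_sum, map_mul]
      refine Finset.sum_eq_zero fun s _ => ?_
      have h4 := hB'z s
      simp only [Matrix.mulVec, dotProduct, map_sum, map_mul] at h4
      rw [h4, mul_zero]
    have h5 : eval z ((C₁ * B').mulVec (fun l => C (r l)) l) = 0 := h3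
    rw [h5, sub_zero]
  -- it is in `M`
  let GG : Λ → MvPolynomial J L := fun l => map (algebraMap k L) (G0 l)
  have hBGG : ∀ l, (B.mulVec GG) l ∈ p := by
    intro l
    have h3 : (B.mulVec GG) l = ∑ t ∈ T, C (b t) * ∑ l', map (algebraMap k L) (cf (b.coord t) (B l l')) * GG l' := by
      simp only [Matrix.mulVec, dotProduct]
      simp only [Finset.mul_sum]
      rw [Finset.sum_comm]
      refine Finset.sum_congr rfl fun l' _ => ?_
      conv_lhs => rw [hT (l, l'), Finset.sum_mul]
      exact Finset.sum_congr rfl fun t _ => mul_assoc _ _ _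
    rw [h3]
    refine Ideal.sum_mem _ fun t ht => Ideal.mul_mem_left _ _ ?_
    have h4 : map (algebraMap k L) ((B'.mulVec G0) (⟨t, ht⟩, l)) ∈ p := hB'G0 (⟨t, ht⟩, l)
    have h5 : map (algebraMap k L) ((B'.mulVec G0) (⟨t, ht⟩, l)) =
        ∑ l', map (algebraMap k L) (cf (b.coord t) (B l l')) * GG l' := by
      simp only [Matrix.mulVec, dotProduct, map_sum, map_mul, B', Matrix.of_apply, GG]
    rwa [h5] at h4
  have hmem : e₀ • GG ∈ M := by
    have h3 : e₀ • GG = B.mulVec GG + Gm.mulVec (C₀.mulVec GG) := by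
      simp only [B]
      rw [Matrix.sub_mulVec, Matrix.smul_mulVec, Matrix.one_mulVec, Matrix.mulVec_mulVec, sub_add_cancel]
    rw [h3]
    refine add_mem (hM0 _ hBGG) ?_
    have h4 : Gm.mulVec (C₀.mulVec GG) = ∑ j, (C₀.mulVec GG) j • 𝒢 j := by
      funext l
      rw [Finset.sum_apply]
      simp only [Matrix.mulVec, dotProduct, Gm, Matrix.of_apply, Pi.smul_apply, smul_eq_mul]
      exact Finset.sum_congr rfl fun j _ => mul_comm _ _
    rw [h4]
    exact Submodule.sum_mem _ fun j _ => Submodule.smul_mem _ _ (h𝒢M j)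
  have hGGM : GG ∈ M := hsat e₀ GG he₀ hmem
  -- normalisation
  refine ⟨fun l => C (eval z e₁)⁻¹ * G0 l, ?_, fun l => ?_⟩
  · have h3 : (fun l => map (algebraMap k L) (C (eval z e₁)⁻¹ * G0 l)) =
        (C (algebraMap k L (eval z e₁)⁻¹) : MvPolynomial J L) • GG := by
      funext l
      rw [map_mul, map_C, Pi.smul_apply, smul_eq_mul]
    rw [h3]
    exact Submodule.smul_mem _ _ hGGM
  · rw [map_mul, eval_C, hG0z, inv_mul_cancel_left₀ hez]

end Pool.Agent.L5helper21.DT
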