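import Pool.Agent.X255.NP.Root

/-!
# Hypersurfaces in the space of the roots
-/

set_option autoImplicit false

namespace Pool.Agent.L5helper21.DT

open MvPolynomial Pool.Agent.X255.NP

/-- a hypersurface in the space of the roots lies over a hypersurface in the space of the coefficients -/
theorem exists_sym {g : ℕ} (e : MvPolynomial (Fin g) ℂ) (he : e ≠ 0) :
    ∃ Q : MvPolynomial (Fin g) ℂ, Q ≠ 0 ∧ ∀ z : Fin g → ℂ, eval z e = 0 → eval (co z) Q = 0 := by
  classical
  let φ : MvPolynomial (Fin g) ℂ →+* MvPolynomial (Fin g) ℂ := (aeval coP : _ →ₐ[ℂ] _).toRingHom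
  let _ : Algebra (MvPolynomial (Fin g) ℂ) (MvPolynomial (Fin g) ℂ) := φ.toAlgebra
  have hev : ∀ (z : Fin g → ℂ) (Q : MvPolynomial (Fin g) ℂ), eval z (φ Q) = eval (co z) Q := by
    intro z Q
    have h1 : (eval z).comp φ = eval (co z) := by
      refine MvPolynomial.ringHom_ext (fun r => ?_) fun i => ?_
      · simp [φ]
      · simp [φ, coP_eval]
    exact RingHom.congr_fun h1 Q
  -- the coordinates are integral
  have hX : ∀ j : Fin g, φ.IsIntegralElem (X j) := by
    intro j
    refine ⟨Polynomial.X ^ g + ∑ i : Fin g, Polynomial.C (X i) * Polynomial.X ^ (i : ℕ), ?_, ?_⟩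
    · refine Polynomial.monic_X_pow_add ?_
      refine lt_of_le_of_lt (Polynomial.degree_sum_le _ _) ((Finset.sup_lt_iff ?_).2 fun i _ => ?_)
      · exact WithBot.bot_lt_coe _
      · refine lt_of_le_of_lt (Polynomial.degree_C_mul_X_pow_le _ _) ?_
        exact_mod_cast i.2
    · rw [Polynomial.eval₂_add, Polynomial.eval₂_X_pow, Polynomial.eval₂_finsetSum]
      refine MvPolynomial.funext fun z => ?_
      rw [map_zero, map_add, map_pow, eval_X, map_sum]
      have h1 : ∀ i : Fin g, eval z (Polynomial.eval₂ φ (X j) (Polynomial.C (X i) * Polynomial.X ^ (i : ℕ))) =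
          co z i * z j ^ (i : ℕ) := by
        intro i
        rw [Polynomial.eval₂_mul, Polynomial.eval₂_C, Polynomial.eval₂_X_pow, map_mul, map_pow, eval_X, hev, eval_X]
      rw [Finset.sum_congr rfl fun i _ => h1 i]
      have h2 : (mp (co z)).eval (z j) = 0 := by
        rw [mp_co, Polynomial.eval_prod, Finset.prod_eq_zero (Finset.mem_univ j) (by simp)]
      rw [mp, Polynomial.eval_add, Polynomial.eval_pow, Polynomial.eval_X, Polynomial.eval_finsetSum] at h2
      simpa using h2
  have hint : ∀ p : MvPolynomial (Fin g) ℂ, φ.IsIntegralElem p := by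
    intro p
    induction p using MvPolynomial.induction_on with
    | C a =>
      have h1 : φ (C a) = C a := by simp [φ]
      rw [← h1]
      exact φ.isIntegralElem_map
    | add p q hp hq => exact RingHom.IsIntegralElem.add φ hp hq
    | mul_X p i hp => exact RingHom.IsIntegralElem.mul φ hp (hX i)
  have h3 : (Ideal.span {e}).comap φ ≠ ⊥ :=
    Ideal.comap_ne_bot_of_integral_mem (R := MvPolynomial (Fin g) ℂ) he (Ideal.mem_span_singleton_self e) (hint e)
  obtain ⟨Q, hQ, hQ0⟩ := Submodule.exists_mem_ne_zero_of_ne_bot h3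
  refine ⟨Q, hQ0, fun z hz => ?_⟩
  obtain ⟨c, hc⟩ := Ideal.mem_span_singleton.1 (Ideal.mem_comap.1 hQ)
  rw [← hev, hc, map_mul, hz, zero_mul]

end Pool.Agent.L5helper21.DT
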