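import Pool.Agent.L5helper21.DT.Rel
import Pool.Agent.L5helper21.DT.Sym
import Pool.Agent.X255.RH.Main

/-!
# The degree statement at the roots of almost all polynomials
-/

set_option autoImplicit false
set_option linter.unusedSectionVars false

open Polynomial Filter Topology NumberField

namespace Pool.Agent.L5helper21.DT

open Pool.Agent.Y890.SP Pool.Agent.Y890.MV Pool.Agent.X255.NP Pool.Agent.X255.GB Pool.Agent.X255.RH
open Pool.Agent.Y124 (Cov)

variable {σ : Type} [Fintype σ] [DecidableEq σ] {V : Set ℂ} {f : σ → ℂ → ℂ} {g : ℕ}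

theorem PS_reg' (hV : IsPreconnected V) (hf : ∀ v, AnalyticOnNhd ℂ (f v) V) (h : Regular V f) (S : Finset (Fin g)) :
    RegularM (UPi (VS V S)) fun (v : Unit × ({i // i ∈ S} × σ)) z => PS f S z v.1 v.2 := by
  classical
  have h1 : RegularM (UPi (VS V S)) (fun (q : Fin g × σ) z => (if q.1 ∈ S then f q.2 else fun _ => 0) (z q.1)) := by
    refine regM_prod (VS V S) (VS_pre hV S) (fun i v => if i ∈ S then f v else fun _ => 0) (fun i v => ?_) fun i => ?_
    · by_cases hi : i ∈ S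
      · rw [VS_of_mem hi, if_pos hi]
        exact hf v
      · rw [if_neg hi]
        exact analyticOnNhd_const
    · by_cases hi : i ∈ S
      · rw [VS_of_mem hi]
        simp only [if_pos hi]
        exact h
      · simp only [if_neg hi]
        exact regular_zero _
  refine regM_poly h1 (fun v => MvPolynomial.X ((v.2.1 : Fin g), v.2.2)) _ ?_
  rintro ⟨_, ⟨i, hi⟩, v⟩ z
  rw [evM_X]
  simp only [if_pos hi]
  rfl

/-- the value at `y` of the polynomial with the coefficients `c` -/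
noncomputable def value {A : Type} [Fintype A] [DecidableEq A] {k : ℕ} (c : (A → Fin (k + 1)) → ℂ) (y : A → ℂ) : ℂ :=
  ∑ l, c l * ∏ a, y a ^ (l a : ℕ)

/-- every relation of degree at most `k` between the numbers `h a z` is the value at `z` of a functional relation with
algebraic coefficients -/
def DegA {A : Type} [Fintype A] [DecidableEq A] (U : Set (Fin g → ℂ)) (h : A → (Fin g → ℂ) → ℂ) (k : ℕ) (H : ℝ)
    (z : Fin g → ℂ) : Prop :=
  ∀ (F : Type) [Field F] [NumberField F], Module.finrank ℚ F ≤ k → ∀ (io : F →+* ℂ)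
    (c : (A → Fin (k + 1)) → 𝓞 F), (∀ l (φ : F →+* ℂ), ‖φ (c l : F)‖ ≤ H) →
    value (fun l => io (c l : F)) (fun a => h a z) = 0 →
    ∃ G : (A → Fin (k + 1)) → MvPolynomial (Fin g) QB,
      (∀ l, MvPolynomial.eval z (MvPolynomial.map (algebraMap QB ℂ) (G l)) = io (c l : F)) ∧
      ∀ u ∈ U, value (fun l => MvPolynomial.eval u (MvPolynomial.map (algebraMap QB ℂ) (G l))) (fun a => h a u) = 0

theorem isAlg_io {F : Type} [Field F] [NumberField F] (io : F →+* ℂ) (x : F) : IsAlgebraic ℚ (io x) := by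
  obtain ⟨p, hp0, hp⟩ : IsAlgebraic ℚ x := Algebra.IsAlgebraic.isAlgebraic x
  refine ⟨p, hp0, ?_⟩
  have h1 := Polynomial.aeval_algHom_apply io.toRatAlgHom x p
  rw [hp, map_zero] at h1
  exact h1

/-- from complex to algebraic coefficients -/
theorem exists_hyper {U : Set (Fin g → ℂ)} (hU : IsPreconnected U)
    (hUo : IsOpen U) (hne : U.Nonempty) {H J : Type} [Fintype H] [DecidableEq H] [Fintype J] [DecidableEq J]
    {P : (Fin g → ℂ) → Matrix H J ℂ} (hP : ∀ a b, AnalyticOnNhd ℂ (fun x => P x a b) U) (k : ℕ) :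
    ∃ Q : MvPolynomial (Fin g) ℂ, Q ≠ 0 ∧ ∀ z ∈ U, (∀ i, IsAlgebraic ℚ (z i)) → MvPolynomial.eval (co z) Q ≠ 0 →
      ∀ T : ℝ, Gen U P (fun _ => 1) k T z → DegA U (fun (a : H × J) z => P z a.1 a.2) k (T ^ k) z := by
  classical
  obtain ⟨e, ⟨x0, hx0, he0⟩, H1⟩ := exists_desc (Λ := H × J → Fin (k + 1)) hU hUo hne (pt := fun x => x)
    (fun j => (ContinuousLinearMap.proj (R := ℂ) (φ := fun _ : Fin g => ℂ) j).analyticOnNhd U)
    (h := fun l x => ∏ v : H × J, P x v.1 v.2 ^ (l v : ℕ))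
    (fun l => Finset.analyticOnNhd_fun_prod _ fun v _ => (hP v.1 v.2).pow _)
  obtain ⟨Q, hQ, hQ'⟩ := exists_sym (MvPolynomial.map (algebraMap QB ℂ) e) (fun h0 => he0 (by rw [h0, map_zero]))
  refine ⟨Q, hQ, fun z hz halg hzQ T hgen => ?_⟩
  intro F _ _ hF io c hc hrel
  have hk : 0 < k := lt_of_lt_of_le Module.finrank_pos hF
  have hsum : ∀ l, ∑ b : Fin k, (1 : ℂ) * io (((if (b : ℕ) = 0 then c l else 0 : 𝓞 F) : 𝓞 F) : F) = io (c l : F) := by
    intro l
    rw [Finset.sum_eq_single (⟨0, hk⟩ : Fin k)]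
    · simp
    · intro b _ hb
      rw [if_neg (fun h0 => hb (Fin.ext h0))]
      simp
    · intro h0
      exact absurd (Finset.mem_univ _) h0
  obtain ⟨⟨G, hG1, hG2⟩, -⟩ := hgen F hF io (fun l b => if (b : ℕ) = 0 then c l else 0) (by
    intro l b φ
    split_ifs with hb
    · exact hc l φ
    · have h1 : (0 : ℝ) ≤ T ^ k := (norm_nonneg _).trans (hc l φ)
      simpa using h1) (by
    unfold relVal
    simp only [hsum]
    exact hrel)
  simp only [hsum] at hG1
  exact H1 z hz halg (fun h0 => hzQ (hQ' z h0)) (fun l => io (c l : F)) (fun l => isAlg_io io _) ⟨G, hG1, hG2⟩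

/-- **The degree statement** for the product of the families over the points of `Q`. -/
def DegreeStatement (V : Set ℂ) (P : σ → ℂ → ℂ) (k : ℕ) (H : ℝ) (Q : Finset ℂ) : Prop :=
  ∀ (F : Type) [Field F] [NumberField F], Module.finrank ℚ F ≤ k → ∀ (io : F →+* ℂ)
    (c : ({x // x ∈ Q} × σ → Fin (k + 1)) → 𝓞 F), (∀ l (φ : F →+* ℂ), ‖φ (c l : F)‖ ≤ H) →
    value (fun l => io (c l : F)) (fun q => P q.2 q.1) = 0 →
    ∃ G : ({x // x ∈ Q} × σ → Fin (k + 1)) → MvPolynomial {x // x ∈ Q} QB,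
      (∀ l, MvPolynomial.aeval (fun x : {x // x ∈ Q} => (x : ℂ)) (G l) = io (c l : F)) ∧
      ∀ u : {x // x ∈ Q} → ℂ, (∀ x, u x ∈ V) →
        value (fun l => MvPolynomial.aeval u (G l)) (fun q => P q.2 (u q.1)) = 0

theorem value_equiv {A B : Type} [Fintype A] [DecidableEq A] [Fintype B] [DecidableEq B] (e : A ≃ B) {k : ℕ}
    (c : (A → Fin (k + 1)) → ℂ) (y : B → ℂ) :
    value (fun l : B → Fin (k + 1) => c fun a => l (e a)) y = value c fun a => y (e a) := by
  unfold value
  refine Fintype.sum_equiv (Equiv.arrowCongr e.symm (Equiv.refl _)) _ _ fun l => ?_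
  have h1 : (Equiv.arrowCongr e.symm (Equiv.refl (Fin (k + 1)))) l = fun a => l (e a) := rfl
  rw [h1]
  congr 1
  exact (Fintype.prod_equiv e (fun a => y (e a) ^ (l (e a) : ℕ)) _ fun a => rfl).symm

/-- transfer to the roots -/
theorem degree_of_degA {z : Fin g → ℂ} (halg : ∀ i, IsAlgebraic ℚ (z i)) (hinj : Function.Injective z)
    (Q : Finset ℂ) (hQ : ∀ x ∈ Q, ∃ i, z i = x) (S : Finset (Fin g)) (hS : ∀ i, i ∈ S ↔ z i ∈ Q) {k : ℕ} {H : ℝ}
    (h : DegA (UPi (VS V S)) (fun (a : Unit × ({i // i ∈ S} × σ)) z => PS f S z a.1 a.2) k H z) :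
    DegreeStatement V f k H Q := by
  classical
  have h1 : Function.Bijective (fun i : {i // i ∈ S} => (⟨z i, (hS i).1 i.2⟩ : {x // x ∈ Q})) := by
    constructor
    · intro i j hij
      exact Subtype.ext (hinj (Subtype.mk.inj hij))
    · rintro ⟨x, hx⟩
      obtain ⟨i, rfl⟩ := hQ x hx
      exact ⟨⟨i, (hS i).2 hx⟩, rfl⟩
  let e0 : {i // i ∈ S} ≃ {x // x ∈ Q} := Equiv.ofBijective _ h1
  let e : Unit × ({i // i ∈ S} × σ) ≃ {x // x ∈ Q} × σ :=
    (Equiv.punitProd ({i // i ∈ S} × σ)).trans (e0.prodCongr (Equiv.refl σ))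
  intro F _ _ hF io c hc hrel
  -- the relation between the values at the `z i`
  obtain ⟨G, hG1, hG2⟩ := h F hF io (fun l => c fun q => l (e.symm q)) (fun l φ => hc _ φ) (by
    have h2 := value_equiv e.symm (fun l : ({x // x ∈ Q} × σ → Fin (k + 1)) => io (c l : F))
      (fun a : Unit × ({i // i ∈ S} × σ) => PS f S z a.1 a.2)
    rw [h2, ← hrel]
    congr 1
    funext q
    obtain ⟨a, rfl⟩ := e.surjective q
    rw [Equiv.symm_apply_apply]
    rfl)
  -- substitution
  let w : Fin g → MvPolynomial {x // x ∈ Q} QB := fun i => if hi : z i ∈ Q then MvPolynomial.X ⟨z i, hi⟩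
    else MvPolynomial.C ⟨z i, mem_algebraicClosure_iff.2 (halg i)⟩
  let u' : ({x // x ∈ Q} → ℂ) → Fin g → ℂ := fun u i => if hi : z i ∈ Q then u ⟨z i, hi⟩ else z i
  have hsub : ∀ (u : {x // x ∈ Q} → ℂ) (p : MvPolynomial (Fin g) QB),
      MvPolynomial.aeval u (MvPolynomial.aeval w p) =
        MvPolynomial.eval (u' u) (MvPolynomial.map (algebraMap QB ℂ) p) := by
    intro u p
    rw [MvPolynomial.eval_map]
    have h2 : ((MvPolynomial.aeval u : MvPolynomial {x // x ∈ Q} QB →ₐ[QB] ℂ).toRingHom.comp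
        (MvPolynomial.aeval w : MvPolynomial (Fin g) QB →ₐ[QB] MvPolynomial {x // x ∈ Q} QB).toRingHom) =
        MvPolynomial.eval₂Hom (algebraMap QB ℂ) (u' u) := by
      refine MvPolynomial.ringHom_ext (fun r => ?_) fun i => ?_
      · simp
      · by_cases hi : z i ∈ Q
        · simp [w, u', hi]
        · simp only [AlgHom.toRingHom_eq_coe, RingHom.coe_comp, RingHom.coe_coe, Function.comp_apply,
            MvPolynomial.aeval_X, MvPolynomial.coe_eval₂Hom, MvPolynomial.eval₂_X, w, u', dif_neg hi,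
            MvPolynomial.aeval_C]
          rfl
    exact RingHom.congr_fun h2 p
  have hid : u' (fun x => (x : ℂ)) = z := by
    funext i
    simp only [u']
    split_ifs <;> rfl
  refine ⟨fun l => MvPolynomial.aeval w (G fun a => l (e a)), fun l => ?_, fun u hu => ?_⟩
  · rw [hsub, hid, hG1]
    congr 4
    funext q
    rw [Equiv.apply_symm_apply]
  · have hu' : u' u ∈ UPi (VS V S) := by
      intro i hi
      simp only [u']
      rw [dif_pos ((hS i).1 hi)]
      exact hu _
    have h2 := hG2 (u' u) hu'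
    simp only [hsub]
    have h3 := value_equiv e (fun l : (Unit × ({i // i ∈ S} × σ) → Fin (k + 1)) =>
      MvPolynomial.eval (u' u) (MvPolynomial.map (algebraMap QB ℂ) (G l))) (fun q => f q.2 (u q.1))
    rw [h3, ← h2]
    congr 1
    funext a
    obtain ⟨_, ⟨i, hi⟩, v⟩ := a
    have h4 : u' u i = u ⟨z i, (hS i).1 hi⟩ := by
      simp only [u']
      rw [dif_pos ((hS i).1 hi)]
    change f v (u ⟨z i, _⟩) = f v (u' u i)
    rw [h4]

end Pool.Agent.L5helper21.DT
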