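import Mathlib

/-!
# Generalised inverses, and relations with algebraic values

`ginv_prime`: a matrix `B` over a ring with a prime ideal `p` has a generalised inverse modulo `p`, up to a factor
`e` outside of `p`.

`descent`: let `k ⊆ L` be fields, `p` a prime ideal of `L[J]`, `M` a submodule of `L[J] ^ Λ` which contains `p ^ Λ` and
is saturated with respect to the complement of `p`. There is `e ∈ k[J]` outside of `p` such that for all points
`z ∈ k ^ J` on the variety of `p` with `e(z) ≠ 0`: every `r ∈ k ^ Λ` which is the value at `z` of an element of `M` is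
the value of an element of `M` with coefficients in `k`.
-/

set_option autoImplicit false

namespace Pool.Agent.L5helper21.DT

open Matrix

theorem ginv_field {K I Λ : Type*} [Field K] [Fintype I] [DecidableEq I] [Fintype Λ] [DecidableEq Λ]
    (B : Matrix I Λ K) : ∃ C : Matrix Λ I K, B * C * B = B := by
  obtain ⟨r, hr⟩ := LinearMap.exists_rightInverse_of_surjective (Matrix.toLin' B).rangeRestrict
    (Matrix.toLin' B).range_rangeRestrict
  obtain ⟨q, hq⟩ := LinearMap.exists_leftInverse_of_injective (LinearMap.range (Matrix.toLin' B)).subtype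
    (Submodule.ker_subtype _)
  refine ⟨LinearMap.toMatrix' (r ∘ₗ q), ?_⟩
  apply Matrix.toLin'.injective
  rw [Matrix.toLin'_mul, Matrix.toLin'_mul, Matrix.toLin'_toMatrix']
  refine LinearMap.ext fun v => ?_
  simp only [LinearMap.comp_apply]
  have h1 : q (Matrix.toLin' B v) = (Matrix.toLin' B).rangeRestrict v :=
    LinearMap.congr_fun hq ((Matrix.toLin' B).rangeRestrict v)
  rw [h1]
  exact congrArg Subtype.val (LinearMap.congr_fun hr ((Matrix.toLin' B).rangeRestrict v))

theorem ginv_domain {D I Λ : Type*} [CommRing D] [IsDomain D] [Fintype I] [DecidableEq I] [Fintype Λ]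
    [DecidableEq Λ] (B : Matrix I Λ D) : ∃ (e : D) (C : Matrix Λ I D), e ≠ 0 ∧ B * C * B = e • B := by
  classical
  obtain ⟨C, hC⟩ := ginv_field (B.map (algebraMap D (FractionRing D)))
  obtain ⟨e, he⟩ := IsLocalization.exist_integer_multiples_of_finite (nonZeroDivisors D)
    (fun q : Λ × I => C q.1 q.2)
  choose c hc using he
  refine ⟨e, Matrix.of fun l i => c (l, i), nonZeroDivisors.ne_zero e.2, ?_⟩
  have hinj := IsFractionRing.injective D (FractionRing D)
  have hcm : (Matrix.of fun l i => c (l, i)).map (algebraMap D (FractionRing D)) =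
      algebraMap D (FractionRing D) (e : D) • C := by
    ext l i
    simp only [Matrix.map_apply, Matrix.of_apply, Matrix.smul_apply, smul_eq_mul]
    have h1 := hc (l, i)
    rw [h1, Algebra.smul_def]
  have key : (B * (Matrix.of fun l i => c (l, i)) * B).map (algebraMap D (FractionRing D)) =
      ((e : D) • B).map (algebraMap D (FractionRing D)) := by
    rw [Matrix.map_mul, Matrix.map_mul, hcm, Matrix.mul_smul, Matrix.smul_mul, hC]
    ext i l
    simp only [Matrix.map_apply, Matrix.smul_apply, smul_eq_mul, map_mul]
  ext i l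
  apply hinj
  have h2 := congrFun (congrFun key i) l
  simpa only [Matrix.map_apply] using h2

theorem ginv_prime {R I Λ : Type*} [CommRing R] (p : Ideal R) [hp : p.IsPrime] [Fintype I] [DecidableEq I]
    [Fintype Λ] [DecidableEq Λ] (B : Matrix I Λ R) :
    ∃ (e : R) (C : Matrix Λ I R), e ∉ p ∧ ∀ i l, (B * C * B - e • B) i l ∈ p := by
  classical
  obtain ⟨e, C, he, hC⟩ := ginv_domain (B.map (Ideal.Quotient.mk p))
  obtain ⟨e', rfl⟩ := Ideal.Quotient.mk_surjective e
  choose c hc using fun q : Λ × I => Ideal.Quotient.mk_surjective (C q.1 q.2)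
  refine ⟨e', Matrix.of fun l i => c (l, i), fun h => he (Ideal.Quotient.eq_zero_iff_mem.2 h), fun i l => ?_⟩
  rw [← Ideal.Quotient.eq_zero_iff_mem]
  have h1 : C = (Matrix.of fun l i => c (l, i)).map (Ideal.Quotient.mk p) := by
    ext l i
    simp only [Matrix.map_apply, Matrix.of_apply]
    exact (hc (l, i)).symm
  rw [h1, ← Matrix.map_mul, ← Matrix.map_mul] at hC
  have h2 := congrFun (congrFun hC i) l
  simp only [Matrix.map_apply, Matrix.smul_apply, smul_eq_mul] at h2
  rw [Matrix.sub_apply, Matrix.smul_apply, smul_eq_mul, map_sub, map_mul, h2, sub_self]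

end Pool.Agent.L5helper21.DT
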