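import Pool.Agent.L5helper21.DT.Fam

/-!
# The degree statement at the roots of almost all polynomials: counting
-/

set_option autoImplicit false
set_option linter.unusedSectionVars false

open Polynomial Filter Topology NumberField

namespace Pool.Agent.L5helper21.DT

open Pool.Agent.Y890.SP Pool.Agent.Y890.MV Pool.Agent.X255.NP Pool.Agent.X255.GB Pool.Agent.X255.RH
open Pool.Agent.Y124 (Cov)

variable {σ : Type} [Fintype σ] [DecidableEq σ] {V : Set ℂ} {f : σ → ℂ → ℂ} {g : ℕ}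

/-- the degree statement holds for all sets of roots in `K` -/
def AllSets (K V : Set ℂ) (f : σ → ℂ → ℂ) (k : ℕ) (H : ℝ) (a : Fin (g + 1) → ℤ) : Prop :=
  ∀ Q : Finset ℂ, (∀ x ∈ Q, (pol a).eval x = 0 ∧ x ∈ K) → DegreeStatement V f k H Q

/-- the exceptional polynomials -/
def ExcD (K V : Set ℂ) (f : σ → ℂ → ℂ) (R η : ℝ) (k : ℕ) (T : ℝ) : Set (Fin (g + 1) → ℤ) :=
  {a | (∀ i, |(a i : ℝ)| ≤ T) ∧ Inn K V R η a ∧ ¬ AllSets K V f k (T ^ k) a}

theorem root_alg {a : Fin (g + 1) → ℤ} {z : Fin g → ℂ} (h : IsRoots a z) (i : Fin g) : IsAlgebraic ℚ (z i) := by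
  let q : ℚ[X] := ∑ i, C (a i : ℚ) * X ^ (i : ℕ)
  have hq : q.map (algebraMap ℚ ℂ) = pol a := by
    simp only [q, pol, Polynomial.map_sum, Polynomial.map_mul, Polynomial.map_pow, Polynomial.map_X, Polynomial.map_C]
    simp
  refine ⟨q, ?_, ?_⟩
  · intro h0
    rw [h0, Polynomial.map_zero] at hq
    exact pol_ne h.1 hq.symm
  · rw [Polynomial.aeval_def, ← Polynomial.eval_map, hq]
    exact h.root i

theorem excD_cov (hg : 0 < g) (hV : IsPreconnected V) (hVo : IsOpen V) (hf : ∀ v, AnalyticOnNhd ℂ (f v) V)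
    (h : Regular V f) (K : Set ℂ) (R η : ℝ) (hη : 0 < η) (k : ℕ) (ε : ℝ) (hε : 0 < ε) :
    ∃ (D : ℕ) (C T₀ : ℝ), 0 ≤ C ∧ 2 ≤ T₀ ∧ ∀ T : ℝ, T₀ ≤ T →
      Cov D ⌊C * T ^ ε⌋₊ (quoC '' ExcD (g := g) K V f R η k T) := by
  classical
  let 𝒦 : Finset (Fin g) → Set (Fin g → ℂ) := fun S =>
    {z | (∀ i, ‖z i‖ ≤ R) ∧ (∀ i j, i ≠ j → η ≤ ‖z i - z j‖) ∧ ∀ i ∈ S, Metric.ball (z i) η ⊆ V}
  have hcl : IsClosed {x : ℂ | Metric.ball x η ⊆ V} := by
    rw [← isSeqClosed_iff_isClosed]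
    intro x a hx ha y hy
    rw [Metric.mem_ball] at hy
    have h2 : Tendsto (fun i => dist y (x i)) atTop (nhds (dist y a)) := tendsto_const_nhds.dist ha
    obtain ⟨i, hi⟩ := (h2.eventually (gt_mem_nhds hy)).exists
    exact hx i (Metric.mem_ball.2 hi)
  have hcomp : ∀ S, IsCompact (𝒦 S) := by
    intro S
    have h1 : IsClosed (𝒦 S) := by
      have h2 : 𝒦 S = (⋂ i, {z | ‖z i‖ ≤ R}) ∩ ((⋂ (i : Fin g) (j : Fin g) (_ : i ≠ j), {z | η ≤ ‖z i - z j‖}) ∩
          ⋂ (i : Fin g) (_ : i ∈ S), (fun z : Fin g → ℂ => z i) ⁻¹' {x : ℂ | Metric.ball x η ⊆ V}) := by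
        ext z
        simp [𝒦]
      rw [h2]
      refine (isClosed_iInter fun i => isClosed_le (continuous_apply i).norm continuous_const).inter (IsClosed.inter ?_ ?_)
      · exact isClosed_iInter fun i => isClosed_iInter fun j => isClosed_iInter fun _ =>
          isClosed_le continuous_const (((continuous_apply i).sub (continuous_apply j)).norm)
      · exact isClosed_iInter fun i => isClosed_iInter fun _ => hcl.preimage (continuous_apply i)
    refine Metric.isCompact_of_isClosed_isBounded h1 ((Metric.isBounded_closedBall (x := (0 : Fin g → ℂ))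
      (r := max R 0)).subset fun z hz => ?_)
    rw [Metric.mem_closedBall, dist_zero_right, pi_norm_le_iff_of_nonneg (le_max_right _ _)]
    exact fun i => (hz.1 i).trans (le_max_left _ _)
  have h𝒦U : ∀ S, 𝒦 S ⊆ UPi (VS V S) := by
    intro S z hz i hi
    exact hz.2.2 i hi (Metric.mem_ball_self hη)
  have hinj : ∀ S, ∀ z ∈ 𝒦 S, Function.Injective z := by
    intro S z hz i j hij
    by_contra hne
    have h1 := hz.2.1 i j hne
    rw [hij, sub_self, norm_zero] at h1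
    linarith
  have hUc : ∀ S : Finset (Fin g), IsPreconnected (UPi (VS V S)) := fun S => by
    rw [UPi_eq]
    exact isPreconnected_univ_pi (VS_pre hV S)
  have hUo : ∀ S : Finset (Fin g), IsOpen (UPi (VS V S)) := fun S => by
    rw [UPi_eq]
    exact isOpen_set_pi Set.finite_univ fun i _ => VS_open hVo S i
  -- the hypersurfaces
  have hhyp : ∀ S : Finset (Fin g), ∃ Q : MvPolynomial (Fin g) ℂ, Q ≠ 0 ∧ ∀ z ∈ UPi (VS V S),
      (∀ i, IsAlgebraic ℚ (z i)) → MvPolynomial.eval (co z) Q ≠ 0 → ∀ T : ℝ,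
      Gen (UPi (VS V S)) (PS f S) (fun _ => 1) k T z →
      DegA (UPi (VS V S)) (fun (a : Unit × ({i // i ∈ S} × σ)) z => PS f S z a.1 a.2) k (T ^ k) z := by
    intro S
    by_cases hne : (UPi (VS V S)).Nonempty
    · exact exists_hyper (P := PS f S) (hUc S) (hUo S) hne (PS_an hf S) k
    · exact ⟨1, one_ne_zero, fun z hz => absurd ⟨z, hz⟩ hne⟩
  choose Qh hQh0 hQh using hhyp
  obtain ⟨D, C, T₀, hC, hT₀, HH⟩ := cov_finset ε (Finset.univ : Finset (Finset (Fin g)))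
    (fun (S : Finset (Fin g)) (T : ℝ) => (quoC '' ExcOn (UPi (VS V S)) (PS f S) (fun _ => 1) k (𝒦 S) T ∪
      {t : Fin g → ℂ | MvPolynomial.eval t (Qh S) = 0} : Set (Fin g → ℂ)))
    fun S _ => by
      obtain ⟨D, C, T₀, hC, hT₀, H⟩ := excOn_cov hg (hUc S) (hUo S)
        (PS_an hf S) (PS_reg' hV hf h S) (fun _ => 1) k (𝒦 S) (hcomp S) (h𝒦U S) (hinj S) ε hε
      refine ⟨max D (Qh S).totalDegree, C + 1, T₀, by positivity, hT₀, fun T hT => ?_⟩
      have hT1 : 1 ≤ T := by linarith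
      have hZcov : Cov (Qh S).totalDegree 1 {t : Fin g → ℂ | MvPolynomial.eval t (Qh S) = 0} := by
        refine ⟨{Qh S}, by simp, ?_, ?_⟩
        · intro P hP
          rw [Finset.mem_singleton] at hP
          subst hP
          exact ⟨hQh0 S, le_rfl⟩
        · intro t ht
          exact ⟨Qh S, Finset.mem_singleton_self _, ht⟩
      have h4 := ((H T hT).mono (le_max_left D (Qh S).totalDegree) le_rfl (Set.Subset.refl _)).union
        (hZcov.mono (le_max_right D (Qh S).totalDegree) le_rfl (Set.Subset.refl _))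
      refine h4.mono le_rfl ?_ (Set.Subset.refl _)
      have h6 : (1 : ℝ) ≤ T ^ ε := Real.one_le_rpow hT1 hε.le
      have h7 : 0 ≤ C * T ^ ε := by positivity
      rw [← Nat.floor_add_one h7]
      apply Nat.floor_le_floor
      nlinarith
  refine ⟨D, C, T₀, hC, hT₀, fun T hT => (HH T hT).mono le_rfl le_rfl ?_⟩
  rintro _ ⟨a, ⟨ha, ⟨z, hz, hz1, hz2, hz3⟩, hno⟩, rfl⟩
  unfold AllSets at hno
  push Not at hno
  obtain ⟨Q, hQ, hQno⟩ := hno
  let S : Finset (Fin g) := Finset.univ.filter fun i => z i ∈ Q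
  have hS : ∀ i, i ∈ S ↔ z i ∈ Q := fun i => by simp [S]
  have hzK : z ∈ 𝒦 S := ⟨hz1, hz2, fun i hi => hz3 i (hQ _ ((hS i).1 hi)).2⟩
  refine Set.mem_iUnion₂.2 ⟨S, Finset.mem_univ _, ?_⟩
  by_cases hzQ : MvPolynomial.eval (co z) (Qh S) = 0
  · right
    have h1 : quoC a = co z := hz.quo_eq
    rw [Set.mem_ofPred_eq, h1]
    exact hzQ
  · left
    refine ⟨a, ⟨ha, z, hzK, hz, fun hgen => hQno ?_⟩, rfl⟩
    refine degree_of_degA (root_alg hz) (hinj S z hzK) Q (fun x hx => ?_) S hS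
      (hQh S z (h𝒦U S hzK) (root_alg hz) hzQ T hgen)
    exact (Pool.Agent.X255.RH.IsRoots.root_iff hz).1 (hQ x hx).1

/-- **Few exceptions among the polynomials with roots in a compact position.** -/
theorem main_pow' (hg : 0 < g) (hV : IsPreconnected V) (hVo : IsOpen V) (hf : ∀ v, AnalyticOnNhd ℂ (f v) V)
    (h : Regular V f) (K : Set ℂ) (k : ℕ) (R η ε : ℝ) (hη : 0 < η) (hε : 0 < ε) :
    ∃ C : ℝ, ∀ T : ℕ, 1 ≤ T → (ExcD (g := g) K V f R η k T).Finite ∧
      ((ExcD (g := g) K V f R η k T).ncard : ℝ) ≤ C * (T : ℝ) ^ ((g : ℝ) + ε) := by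
  obtain ⟨D, C, T₀, hC, hT₀, HH⟩ := excD_cov hg hV hVo hf h K R η hη k ε hε
  have hfin : ∀ T : ℕ, (ExcD (g := g) K V f R η k T) ⊆ (bx g T : Set (Fin (g + 1) → ℤ)) := by
    rintro T a ⟨ha, _⟩
    exact mem_bx.2 fun i => by exact_mod_cast ha i
  refine ⟨max (C * D * 3 ^ g) ((2 * T₀ + 1) ^ (g + 1)), fun T hT => ⟨(Finset.finite_toSet _).subset (hfin T), ?_⟩⟩
  have hTr : (1 : ℝ) ≤ T := by exact_mod_cast hT
  have hTp : (0 : ℝ) < T := by linarith
  rcases le_or_gt T₀ (T : ℝ) with hTT | hTT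
  · obtain ⟨h7, h8⟩ := count_of_cov hg (ExcD (g := g) K V f R η k T) hTr (by
      rintro a ⟨ha, hi, _⟩
      exact ⟨ha, hi.lead⟩) (HH T hTT)
    refine h8.trans ?_
    have hfl : ((⌊C * (T : ℝ) ^ ε⌋₊ : ℕ) : ℝ) ≤ C * (T : ℝ) ^ ε := Nat.floor_le (by positivity)
    calc (⌊C * (T : ℝ) ^ ε⌋₊ : ℝ) * D * (3 * T) ^ g ≤ (C * (T : ℝ) ^ ε) * D * (3 * T) ^ g := by gcongr
      _ = (C * D * 3 ^ g) * (T : ℝ) ^ ((g : ℝ) + ε) := by
          rw [Real.rpow_add hTp, Real.rpow_natCast, mul_pow]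
          ring
      _ ≤ _ := mul_le_mul_of_nonneg_right (le_max_left _ _) (by positivity)
  · have h1 : ((ExcD (g := g) K V f R η k T).ncard : ℝ) ≤ (bx g T).card := by
      have h2 := Set.ncard_le_ncard (hfin T) (Finset.finite_toSet _)
      rw [Set.ncard_coe_finset] at h2
      exact_mod_cast h2
    refine h1.trans ?_
    rw [bx_card]
    have h2 : (2 * (T : ℝ) + 1) ^ (g + 1) ≤ (2 * T₀ + 1) ^ (g + 1) := pow_le_pow_left₀ (by positivity) (by linarith) _
    refine (h2.trans (le_max_right (C * D * 3 ^ g) _)).trans ?_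
    refine le_mul_of_one_le_right (le_trans (by positivity) (le_max_right _ ((2 * T₀ + 1) ^ (g + 1)))) ?_
    exact Real.one_le_rpow hTr (by positivity)

/-- `a` is of degree `g`, has simple roots, and the degree statement holds for all sets of roots in `K` -/
def GoodD (K V : Set ℂ) (f : σ → ℂ → ℂ) (k : ℕ) (T : ℝ) (a : Fin (g + 1) → ℤ) : Prop :=
  a (Fin.last g) ≠ 0 ∧ (pol a).Separable ∧ AllSets K V f k (T ^ k) a

open scoped Classical in
theorem countD_k (hg : 0 < g) (hV : IsPreconnected V) (hVo : IsOpen V) {K : Set ℂ} (hVt : Tame K V)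
    (hf : ∀ v, AnalyticOnNhd ℂ (f v) V) (h : Regular V f) (k : ℕ) (hk : 1 ≤ k) :
    ∃ T₀ : ℕ, ∀ T, T₀ ≤ T → (k : ℝ) * ((bx g T).filter fun a => ¬ GoodD K V f k T a).card ≤ (bx g T).card := by
  have hk' : (1 : ℝ) ≤ k := by exact_mod_cast hk
  obtain ⟨R, η, T₁, hη, hinn⟩ := inn_count hg hVt (δ := 1 / (2 * k)) (by positivity)
  obtain ⟨D, C, T₂, hC, hT₂, HH⟩ := excD_cov hg hV hVo hf h K R η hη k (1 / 2) (by norm_num)
  refine ⟨max (max 1 T₁) (max ⌈T₂⌉₊ ⌈(2 * k * (C * D * 3 ^ g)) ^ 2⌉₊), fun T hT => ?_⟩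
  simp only [max_le_iff] at hT
  obtain ⟨⟨hT1, hTa⟩, hTb, hTc⟩ := hT
  have hTr : (1 : ℝ) ≤ T := by exact_mod_cast hT1
  have hTp : (0 : ℝ) < T := by linarith
  have hTb' : T₂ ≤ T := Nat.ceil_le.1 hTb
  have hTc' : (2 * k * (C * D * 3 ^ g)) ^ 2 ≤ (T : ℝ) := Nat.ceil_le.1 hTc
  obtain ⟨h7, h8⟩ := count_of_cov hg (ExcD (g := g) K V f R η k T) hTr (by
    rintro a ⟨ha, hi, _⟩
    exact ⟨ha, hi.lead⟩) (HH T hTb')
  have hsub : ((bx g T).filter fun a => ¬ GoodD K V f k T a) ⊆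
      ((bx g T).filter fun a => ¬ Inn K V R η a) ∪ h7.toFinset := by
    intro a ha
    rw [Finset.mem_filter] at ha
    rw [Finset.mem_union, Finset.mem_filter, Set.Finite.mem_toFinset]
    by_cases hi : Inn K V R η a
    · right
      refine ⟨fun i => by exact_mod_cast mem_bx.1 ha.1 i, hi, fun hno => ha.2 ⟨hi.lead, hi.sep hη, hno⟩⟩
    · exact Or.inl ⟨ha.1, hi⟩
  have h1 := (Finset.card_le_card hsub).trans (Finset.card_union_le _ _)
  rw [← Set.ncard_eq_toFinset_card _ h7] at h1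
  have h2 : (((bx g T).filter fun a => ¬ GoodD K V f k T a).card : ℝ) ≤
      ((bx g T).filter fun a => ¬ Inn K V R η a).card + (ExcD (g := g) K V f R η k T).ncard := by exact_mod_cast h1
  have h3 := hinn T hTa
  set Bx : ℝ := ((bx g T).card : ℝ) with hBx
  have hBx0 : 0 ≤ Bx := Nat.cast_nonneg _
  -- the second part
  have h4 : 2 * k * ((ExcD (g := g) K V f R η k T).ncard : ℝ) ≤ Bx := by
    have hsq : ((T : ℝ)) ^ (1 / 2 : ℝ) = √T := by rw [Real.sqrt_eq_rpow]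
    rw [hsq] at h8
    have hs : 2 * k * (C * D * 3 ^ g) ≤ √(T : ℝ) := Real.le_sqrt_of_sq_le hTc'
    have hfl : ((⌊C * √(T : ℝ)⌋₊ : ℕ) : ℝ) ≤ C * √T := Nat.floor_le (by positivity)
    have hTT : √(T : ℝ) * √T = T := Real.mul_self_sqrt (by positivity)
    calc 2 * k * ((ExcD (g := g) K V f R η k T).ncard : ℝ)
        ≤ 2 * k * ((⌊C * √(T : ℝ)⌋₊ : ℝ) * D * (3 * T) ^ g) := mul_le_mul_of_nonneg_left h8 (by positivity)
      _ ≤ 2 * k * ((C * √T) * D * (3 * T) ^ g) := by gcongr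
      _ = (2 * k * (C * D * 3 ^ g)) * (√T * T ^ g) := by rw [mul_pow]; ring
      _ ≤ √T * (√T * T ^ g) := mul_le_mul_of_nonneg_right hs (by positivity)
      _ = T ^ (g + 1) := by rw [← mul_assoc, hTT, pow_succ]; ring
      _ ≤ (2 * (T : ℝ) + 1) ^ (g + 1) := pow_le_pow_left₀ (by positivity) (by linarith) _
      _ = Bx := by rw [hBx, bx_card]
  have h5 : (k : ℝ) * (1 / (2 * k) * Bx) = Bx / 2 := by
    field_simp
  nlinarith

/-- the points at distance at least `1 / k` from the complement are in a tame position -/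
theorem tame_inner (V : Set ℂ) (k : ℕ) (hk : 1 ≤ k) : Tame {x : ℂ | Metric.ball x (1 / (k : ℝ)) ⊆ V} V := by
  refine ⟨∅, 1 / (k : ℝ), by positivity, fun R => by simp, fun z hz w hw => Or.inr (Or.inr ?_)⟩
  by_contra hcon
  push Not at hcon
  apply hw
  apply hz
  rw [Metric.mem_ball, dist_comm, dist_eq_norm]
  exact hcon

open scoped Classical in
/-- **Almost all polynomials.** -/
theorem mainD (hg : 0 < g) (hV : IsPreconnected V) (hVo : IsOpen V)
    (hf : ∀ v, AnalyticOnNhd ℂ (f v) V) (h : Regular V f) :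
    ∃ ω : ℕ → ℕ, Tendsto ω atTop atTop ∧ Monotone ω ∧ ∀ T : ℕ,
      ω T * ((bx g T).filter fun a =>
        ¬ GoodD {x : ℂ | Metric.ball x (1 / (ω T : ℝ)) ⊆ V} V f (ω T) T a).card ≤ (bx g T).card := by
  obtain ⟨ω, T₀, h1, h2, h3⟩ := exists_omega
    (fun k T => (k : ℝ) * ((bx g ⌊T⌋₊).filter fun a =>
      ¬ GoodD {x : ℂ | Metric.ball x (1 / (k : ℝ)) ⊆ V} V f k (⌊T⌋₊ : ℕ) a).card ≤ (bx g ⌊T⌋₊).card) (by
      intro k
      obtain ⟨B₀, hB₀⟩ := countD_k hg hV hVo (tame_inner V (k + 1) (Nat.succ_pos k)) hf h (k + 1) (Nat.succ_pos k)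
      exact ⟨B₀, fun T hT => hB₀ _ (Nat.le_floor hT)⟩)
  refine ⟨fun B => if T₀ ≤ B then ω B else 0, ?_, ?_, ?_⟩
  · have h4 : (fun B : ℕ => if T₀ ≤ B then ω B else 0) =ᶠ[atTop] fun B : ℕ => ω B := by
      filter_upwards [eventually_ge_atTop ⌈T₀⌉₊] with B hB
      rw [if_pos (Nat.ceil_le.1 hB)]
    exact Tendsto.congr' h4.symm (h1.comp tendsto_natCast_atTop_atTop)
  · intro B B' hBB
    have hc : (B : ℝ) ≤ B' := by exact_mod_cast hBB
    by_cases h4 : T₀ ≤ (B : ℝ)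
    · simp only [if_pos h4, if_pos (h4.trans hc)]
      exact h2 hc
    · simp only [if_neg h4]
      exact Nat.zero_le _
  · intro B
    by_cases h4 : T₀ ≤ (B : ℝ)
    · simp only [if_pos h4]
      have h5 := (h3 B h4).2
      simp only [Nat.floor_natCast] at h5
      exact_mod_cast h5
    · simp only [if_neg h4, zero_mul]
      exact Nat.zero_le _

end Pool.Agent.L5helper21.DT
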