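import Pool.Agent.L5helper21.DT.Coef

/-!
# Descent of functional relations

`U` is a connected open subset of `ℂ ^ X`, `pt : U → ℂ ^ J` an analytic map (the coordinates of a point of the base), `h l` analytic
functions. For all points `x` of `U` with algebraic `pt x` outside a hypersurface defined over the algebraic numbers: if
algebraic numbers `r l` are the values at `x` of the coefficients of a relation between the `h l` over `ℂ[pt]` then they are
the values of the coefficients of a relation with algebraic coefficients.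
-/

set_option autoImplicit false
set_option linter.unusedSectionVars false

namespace Pool.Agent.L5helper21.DT

open MvPolynomial Filter Topology

/-- the field of the algebraic numbers in `ℂ` -/
abbrev QB : Type := algebraicClosure ℚ ℂ

variable {X J Λ : Type} [Fintype X] [Fintype Λ]

/-- the relations between the `h l` on `U` over `ℂ[pt]` -/
def relM (U : Set (X → ℂ)) (pt : (X → ℂ) → J → ℂ) (h : Λ → (X → ℂ) → ℂ) :
    Submodule (MvPolynomial J ℂ) (Λ → MvPolynomial J ℂ) where
  carrier := {G | ∀ x ∈ U, ∑ l, eval (pt x) (G l) * h l x = 0}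
  add_mem' := by
    intro a b ha hb x hx
    simp only [Pi.add_apply, map_add, add_mul, Finset.sum_add_distrib]
    rw [ha x hx, hb x hx, add_zero]
  zero_mem' := by
    intro x _
    simp
  smul_mem' := by
    intro c a ha x hx
    simp only [Pi.smul_apply, smul_eq_mul, map_mul, mul_assoc, ← Finset.mul_sum]
    rw [ha x hx, mul_zero]

theorem mem_relM {U : Set (X → ℂ)} {pt : (X → ℂ) → J → ℂ} {h : Λ → (X → ℂ) → ℂ} {G : Λ → MvPolynomial J ℂ} :
    G ∈ relM U pt h ↔ ∀ x ∈ U, ∑ l, eval (pt x) (G l) * h l x = 0 := Iff.rfl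

/-- the polynomials which vanish on the image of `pt` -/
def vanI (U : Set (X → ℂ)) (pt : (X → ℂ) → J → ℂ) : Ideal (MvPolynomial J ℂ) where
  carrier := {p | ∀ x ∈ U, eval (pt x) p = 0}
  add_mem' := by
    intro a b ha hb x hx
    rw [map_add, ha x hx, hb x hx, add_zero]
  zero_mem' := by
    intro x _
    exact map_zero _
  smul_mem' := by
    intro c a ha x hx
    rw [smul_eq_mul, map_mul, ha x hx, mul_zero]

theorem mem_vanI {U : Set (X → ℂ)} {pt : (X → ℂ) → J → ℂ} {p : MvPolynomial J ℂ} :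
    p ∈ vanI U pt ↔ ∀ x ∈ U, eval (pt x) p = 0 := Iff.rfl

theorem an_eval {U : Set (X → ℂ)} {pt : (X → ℂ) → J → ℂ} (hpt : ∀ j, AnalyticOnNhd ℂ (fun x => pt x j) U)
    (p : MvPolynomial J ℂ) : AnalyticOnNhd ℂ (fun x => eval (pt x) p) U := by
  induction p using MvPolynomial.induction_on with
  | C a =>
    simp only [eval_C]
    exact analyticOnNhd_const
  | add p q hp hq =>
    simp only [map_add]
    exact hp.add hq
  | mul_X p i hp =>
    simp only [map_mul, eval_X]
    exact hp.mul (hpt i)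

/-- a product of analytic functions which vanishes -/
theorem an_mul {U : Set (X → ℂ)} (hU : IsPreconnected U) (hUo : IsOpen U) {u v : (X → ℂ) → ℂ}
    (hu : AnalyticOnNhd ℂ u U) (hv : AnalyticOnNhd ℂ v U) (huv : ∀ x ∈ U, u x * v x = 0) {x0 : X → ℂ} (hx0 : x0 ∈ U)
    (hu0 : u x0 ≠ 0) : ∀ x ∈ U, v x = 0 := by
  refine hv.eqOn_zero_of_preconnected_of_eventuallyEq_zero hU hx0 ?_
  have h1 : ∀ᶠ x in 𝓝 x0, u x ≠ 0 := (hu x0 hx0).continuousAt.eventually_ne hu0
  filter_upwards [h1, hUo.mem_nhds hx0] with x hx hxU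
  exact (mul_eq_zero.1 (huv x hxU)).resolve_left hx

theorem vanI_prime {U : Set (X → ℂ)} (hU : IsPreconnected U) (hUo : IsOpen U) (hne : U.Nonempty)
    {pt : (X → ℂ) → J → ℂ} (hpt : ∀ j, AnalyticOnNhd ℂ (fun x => pt x j) U) : (vanI U pt).IsPrime := by
  refine ⟨?_, ?_⟩
  · obtain ⟨x0, hx0⟩ := hne
    rw [Ideal.ne_top_iff_one]
    intro h1
    have h2 := h1 x0 hx0
    rw [map_one] at h2
    exact one_ne_zero h2
  · intro p q hpq
    by_cases hp : p ∈ vanI U pt
    · exact Or.inl hp
    right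
    rw [mem_vanI] at hp
    push Not at hp
    obtain ⟨x0, hx0, hp0⟩ := hp
    refine an_mul hU hUo (an_eval hpt p) (an_eval hpt q) (fun x hx => ?_) hx0 hp0
    rw [← map_mul]
    exact hpq x hx

/-- **Descent of functional relations.** -/
theorem exists_desc [Finite J] [DecidableEq Λ] {U : Set (X → ℂ)} (hU : IsPreconnected U) (hUo : IsOpen U)
    (hne : U.Nonempty) {pt : (X → ℂ) → J → ℂ} (hpt : ∀ j, AnalyticOnNhd ℂ (fun x => pt x j) U)
    {h : Λ → (X → ℂ) → ℂ} (hh : ∀ l, AnalyticOnNhd ℂ (h l) U) :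
    ∃ e : MvPolynomial J QB, (∃ x ∈ U, eval (pt x) (map (algebraMap QB ℂ) e) ≠ 0) ∧
      ∀ x ∈ U, (∀ j, IsAlgebraic ℚ (pt x j)) → eval (pt x) (map (algebraMap QB ℂ) e) ≠ 0 →
      ∀ r : Λ → ℂ, (∀ l, IsAlgebraic ℚ (r l)) →
      (∃ G : Λ → MvPolynomial J ℂ, (∀ l, eval (pt x) (G l) = r l) ∧ ∀ y ∈ U, ∑ l, eval (pt y) (G l) * h l y = 0) →
      ∃ G : Λ → MvPolynomial J QB, (∀ l, eval (pt x) (map (algebraMap QB ℂ) (G l)) = r l) ∧
        ∀ y ∈ U, ∑ l, eval (pt y) (map (algebraMap QB ℂ) (G l)) * h l y = 0 := by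
  classical
  have hp := vanI_prime hU hUo hne hpt
  obtain ⟨e, he, H⟩ := descent (k := QB) (L := ℂ) (vanI U pt) (relM U pt h) (by
    intro G hG x hx
    refine Finset.sum_eq_zero fun l _ => ?_
    rw [hG l x hx, zero_mul]) (by
    intro d G hd hG
    rw [mem_vanI] at hd
    push Not at hd
    obtain ⟨x0, hx0, hd0⟩ := hd
    refine an_mul hU hUo (an_eval hpt d) (v := fun x => ∑ l, eval (pt x) (G l) * h l x)
      (Finset.analyticOnNhd_fun_sum _ fun l _ => (an_eval hpt (G l)).mul (hh l)) (fun x hx => ?_) hx0 hd0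
    have h1 := hG x hx
    simp only [Pi.smul_apply, smul_eq_mul, map_mul, mul_assoc, ← Finset.mul_sum] at h1
    exact h1)
  refine ⟨e, ?_, fun x hx halg hex r hr hG => ?_⟩
  · rw [mem_vanI] at he
    push Not at he
    exact he
  · let z : J → QB := fun j => ⟨pt x j, mem_algebraicClosure_iff.2 (halg j)⟩
    let r' : Λ → QB := fun l => ⟨r l, mem_algebraicClosure_iff.2 (hr l)⟩
    have hz : (fun j => algebraMap QB ℂ (z j)) = pt x := rfl
    have hev : ∀ p : MvPolynomial J QB, eval (pt x) (map (algebraMap QB ℂ) p) = algebraMap QB ℂ (eval z p) := by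
      intro p
      rw [← hz, eval_map]
      exact (eval₂_comp_left (algebraMap QB ℂ) (RingHom.id QB) z p).symm
    obtain ⟨G, hG1, hG2⟩ := hG
    obtain ⟨G', hG'1, hG'2⟩ := H z (fun q hq => by rw [hz]; exact hq x hx) (by
      intro h0
      apply hex
      rw [hev, h0, map_zero]) r' ⟨G, hG2, fun l => by rw [hz]; exact hG1 l⟩
    refine ⟨G', fun l => ?_, hG'1⟩
    rw [hev, hG'2]
    rfl

end Pool.Agent.L5helper21.DT
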